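import Pool.Agent.Y201.C3.Stm
import Pool.Agent.TH314.PD.Restr

/-!
Project C3, job BASE: a birational map of degree-3 forms from `P^4` to a cubic in `P^5` has a base
point.
-/

set_option autoImplicit false

namespace Pool.Agent.Y270.C3

open MvPolynomial Finset Pool.Agent.TH314.PD Pool.Agent.Y201.C3

noncomputable section

/-- generation by forms without common zero -/
theorem gen0 {m k D : ℕ} (G : Fin k → MvPolynomial (Fin m) ℂ) (hG : ∀ i, (G i).IsHomogeneous D)
    (hz : ∀ z : Fin m → ℂ, (∀ i, eval z (G i) = 0) → z = 0) :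
    ∃ e0, ∀ e, e0 ≤ e → ∀ H : MvPolynomial (Fin m) ℂ, H.IsHomogeneous e →
      ∃ h : Fin k → MvPolynomial (Fin m) ℂ, (∀ i, (h i).IsHomogeneous (e - D)) ∧
        H = ∑ i, h i * G i := by
  set J : Ideal (MvPolynomial (Fin m) ℂ) := Ideal.span (Set.range G) with hJ
  have h1 : idealOfVars (Fin m) ℂ ≤ J.radical := by
    rw [← vanishingIdeal_zeroLocus_eq_radical (K := ℂ), idealOfVars, Ideal.span_le]
    rintro _ ⟨i, rfl⟩
    rw [SetLike.mem_coe, mem_vanishingIdeal_iff]
    intro z hzz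
    rw [mem_zeroLocus_iff] at hzz
    have h2 : z = 0 := by
      apply hz z
      intro j
      have := hzz (G j) (Ideal.subset_span ⟨j, rfl⟩)
      rwa [aeval_eq_eval] at this
    rw [aeval_X, h2, Pi.zero_apply]
  obtain ⟨N, hN⟩ := Ideal.exists_pow_le_of_le_radical_of_fg h1 (idealOfVars_fg _ _)
  refine ⟨N + D, fun e he H hH => ?_⟩
  have h3 : H ∈ J := by
    apply hN
    rw [mem_pow_idealOfVars_iff']
    intro α hα
    exact hH.coeff_eq_zero (by omega)
  rw [hJ, Ideal.mem_span_range_iff_exists_fun] at h3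
  obtain ⟨c, hc⟩ := h3
  refine ⟨fun i => homogeneousComponent (e - D) (c i),
    fun i => homogeneousComponent_isHomogeneous _ _, ?_⟩
  conv_lhs => rw [← homogeneousComponent_eq_self hH, ← hc, map_sum]
  exact Finset.sum_congr rfl fun i _ => hc_mul (c i) (G i) (hG i) (by omega)

/-- elements of the field of ratios are quotients of values of forms -/
theorem ratio_form {K : Type} [Field K] [Algebra ℂ K] {m : ℕ} {x : Fin m → K} {a : Fin m}
    (ha : x a ≠ 0) {z : K} (hz : z ∈ ratioField x) :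
    ∃ (e : ℕ) (P Q : MvPolynomial (Fin m) ℂ), P.IsHomogeneous e ∧ Q.IsHomogeneous e ∧
      aeval x Q ≠ 0 ∧ aeval x Q * z = aeval x P := by
  unfold ratioField at hz
  induction hz using IntermediateField.adjoin_induction with
  | mem z hz =>
    obtain ⟨i, j, rfl⟩ := hz
    by_cases hj : x j = 0
    · refine ⟨1, 0, X a, isHomogeneous_zero _ _ _, isHomogeneous_X _ _, by rwa [aeval_X], ?_⟩
      rw [hj, div_zero, mul_zero, map_zero]
    · refine ⟨1, X i, X j, isHomogeneous_X _ _, isHomogeneous_X _ _, by rwa [aeval_X], ?_⟩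
      rw [aeval_X, aeval_X]
      field_simp
  | algebraMap c =>
    refine ⟨0, C c, 1, isHomogeneous_C _ _, isHomogeneous_one _ _,
      by rw [map_one]; exact one_ne_zero, ?_⟩
    rw [map_one, one_mul, aeval_C]
  | add z w _ _ h1 h2 =>
    obtain ⟨e1, P1, Q1, hP1, hQ1, n1, r1⟩ := h1
    obtain ⟨e2, P2, Q2, hP2, hQ2, n2, r2⟩ := h2
    refine ⟨e1 + e2, P1 * Q2 + Q1 * P2, Q1 * Q2, (hP1.mul hQ2).add (hQ1.mul hP2),
      hQ1.mul hQ2, ?_, ?_⟩
    · rw [map_mul]; exact mul_ne_zero n1 n2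
    · rw [map_mul, map_add, map_mul, map_mul, ← r1, ← r2]; ring
  | inv z _ h1 =>
    obtain ⟨e1, P1, Q1, hP1, hQ1, n1, r1⟩ := h1
    by_cases hz0 : z = 0
    · refine ⟨e1, 0, Q1, isHomogeneous_zero _ _ _, hQ1, n1, ?_⟩
      rw [hz0, inv_zero, mul_zero, map_zero]
    · refine ⟨e1, Q1, P1, hQ1, hP1, ?_, ?_⟩
      · rw [← r1]; exact mul_ne_zero n1 hz0
      · rw [← r1]; field_simp
  | mul z w _ _ h1 h2 =>
    obtain ⟨e1, P1, Q1, hP1, hQ1, n1, r1⟩ := h1
    obtain ⟨e2, P2, Q2, hP2, hQ2, n2, r2⟩ := h2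
    refine ⟨e1 + e2, P1 * P2, Q1 * Q2, hP1.mul hP2, hQ1.mul hQ2, ?_, ?_⟩
    · rw [map_mul]; exact mul_ne_zero n1 n2
    · rw [map_mul, map_mul, ← r1, ← r2]; ring

variable {M : Type} [Field M] [Algebra ℂ M] {s : Fin 5 → M} {G : Fin 6 → MvPolynomial (Fin 5) ℂ}
  {g : Fin 6 → M}

theorem ratio_le (hr : ∀ i j, s i / s j ∈ ratioField g) : ratioField s ≤ ratioField g := by
  unfold ratioField at hr ⊢
  rw [IntermediateField.adjoin_le_iff]
  rintro _ ⟨i, j, rfl⟩
  exact hr i j

/-- a common denominator for finitely many monomials -/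
theorem common (hG : ∀ i, (G i).IsHomogeneous 3) (hg : ∀ l, g l = aeval s (G l))
    (hs : ∃ b, s b ≠ 0) {a : Fin 6} (ha : g a ≠ 0) (hr : ∀ i j, s i / s j ∈ ratioField g)
    (B : Finset (Fin 5 →₀ ℕ)) :
    ∃ (E : ℕ) (Q : MvPolynomial (Fin 6) ℂ), Q.IsHomogeneous E ∧ aeval g Q ≠ 0 ∧
      ∀ β ∈ B, ∀ j, ∑ i, β i = 3 * j → ∃ P : MvPolynomial (Fin 6) ℂ, P.IsHomogeneous (j + E) ∧
        aeval g Q * aeval s (monomial β (1 : ℂ)) = aeval g P := by
  classical
  induction B using Finset.induction_on with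
  | empty =>
    refine ⟨0, 1, isHomogeneous_one _ _, by rw [map_one]; exact one_ne_zero, ?_⟩
    intro β hβ
    simp at hβ
  | insert β B _ ih =>
    obtain ⟨E, Q, hQ, hQ0, hB⟩ := ih
    by_cases hj : ∃ j, ∑ i, β i = 3 * j
    · obtain ⟨j, hj⟩ := hj
      have hm : (monomial β (1 : ℂ)).IsHomogeneous (3 * j) := by
        apply isHomogeneous_monomial
        rw [Finsupp.degree_eq_sum]
        exact hj
      have hmem : aeval s (monomial β (1 : ℂ)) / g a ^ j ∈ ratioField g := by
        have h1 := ratio_mem s hs hm (H' := G a ^ j) ((hG a).pow j)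
        rw [map_pow, ← hg a] at h1
        exact ratio_le hr h1
      obtain ⟨e, P', Q', hP', hQ', hQ'0, hPQ⟩ := ratio_form ha hmem
      have hPQ' : aeval g Q' * aeval s (monomial β (1 : ℂ)) = g a ^ j * aeval g P' := by
        rw [← hPQ]
        field_simp
      refine ⟨E + e, Q * Q', hQ.mul hQ', by rw [map_mul]; exact mul_ne_zero hQ0 hQ'0, ?_⟩
      intro β' hβ' j' hj'
      rcases Finset.mem_insert.1 hβ' with h | h
      · subst h
        have hjj : j' = j := by omega
        subst hjj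
        refine ⟨Q * (X a ^ j' * P'), ?_, ?_⟩
        · have h1 : (Q * (X a ^ j' * P')).IsHomogeneous (E + (1 * j' + e)) :=
            hQ.mul (((isHomogeneous_X ℂ a).pow j').mul hP')
          have h2 : E + (1 * j' + e) = j' + (E + e) := by ring
          rwa [h2] at h1
        · rw [map_mul, map_mul, map_mul, map_pow, aeval_X, mul_assoc, hPQ']
      · obtain ⟨P, hP, hPe⟩ := hB β' h j' hj'
        refine ⟨P * Q', ?_, ?_⟩
        · have h1 := hP.mul hQ'
          have h2 : j' + E + e = j' + (E + e) := by ring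
          rwa [h2] at h1
        · rw [map_mul, map_mul, ← hPe]
          ring
    · refine ⟨E, Q, hQ, hQ0, ?_⟩
      intro β' hβ' j' hj'
      rcases Finset.mem_insert.1 hβ' with h | h
      · subst h
        exact absurd ⟨j', hj'⟩ hj
      · exact hB β' h j' hj'

/-- a common denominator for all forms -/
theorem allforms (hG : ∀ i, (G i).IsHomogeneous 3) (hg : ∀ l, g l = aeval s (G l))
    (hs : ∃ b, s b ≠ 0) {a : Fin 6} (ha : g a ≠ 0) (hr : ∀ i j, s i / s j ∈ ratioField g)
    (hz : ∀ z : Fin 5 → ℂ, (∀ i, eval z (G i) = 0) → z = 0) :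
    ∃ (E : ℕ) (Q : MvPolynomial (Fin 6) ℂ), aeval g Q ≠ 0 ∧
      ∀ (d : ℕ) (H : MvPolynomial (Fin 5) ℂ), H.IsHomogeneous (3 * d) →
        ∃ P : MvPolynomial (Fin 6) ℂ, P.IsHomogeneous (d + E) ∧
          aeval g Q * aeval s H = aeval g P := by
  classical
  obtain ⟨e0, he0⟩ := gen0 G hG hz
  obtain ⟨E, Q, hQ, hQ0, hB⟩ := common hG hg hs ha hr (bd (Fin 5) (e0 + 3))
  refine ⟨E, Q, hQ0, ?_⟩
  intro d
  induction d with
  | zero =>
    intro H hH
    have h1 : ∀ α : Fin 5 →₀ ℕ, ∃ P : MvPolynomial (Fin 6) ℂ, P.IsHomogeneous (0 + E) ∧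
        (α ∈ H.support → aeval g Q * aeval s (monomial α (1 : ℂ)) = aeval g P) := by
      intro α
      by_cases hα : α ∈ H.support
      · have h2 : ∑ i, α i = 3 * 0 := by
          have := hH.degree_eq_sum_deg_support hα
          rw [this]
          exact (Finset.sum_subset (subset_univ _) (fun i _ hi => by simpa using hi)).symm
        obtain ⟨P, hP, hPe⟩ := hB α (mem_bd.2 (by omega)) 0 h2
        exact ⟨P, hP, fun _ => hPe⟩
      · exact ⟨0, isHomogeneous_zero _ _ _, fun h => absurd h hα⟩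
    choose P hP hPe using h1
    refine ⟨∑ α ∈ H.support, C (coeff α H) * P α,
      IsHomogeneous.sum _ _ _ fun α _ => (hP α).C_mul _, ?_⟩
    conv_lhs => rw [H.as_sum, map_sum, Finset.mul_sum]
    rw [map_sum]
    refine Finset.sum_congr rfl fun α hα => ?_
    rw [map_mul, aeval_C, ← hPe α hα]
    have h3 : (monomial α (coeff α H) : MvPolynomial (Fin 5) ℂ) =
        C (coeff α H) * monomial α (1 : ℂ) := by
      rw [C_mul_monomial, mul_one]
    rw [h3, map_mul, aeval_C]
    ring
  | succ d ih =>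
    intro H hH
    by_cases hd : e0 ≤ 3 * (d + 1)
    · obtain ⟨h, hh, hHe⟩ := he0 _ hd H hH
      have h0 : 3 * (d + 1) - 3 = 3 * d := by omega
      rw [h0] at hh
      choose P hP hPe using fun i => ih (h i) (hh i)
      refine ⟨∑ i, P i * X i, ?_, ?_⟩
      · refine IsHomogeneous.sum _ _ _ fun i _ => ?_
        have h1 := (hP i).mul (isHomogeneous_X ℂ i)
        have h2 : d + E + 1 = d + 1 + E := by ring
        rwa [h2] at h1
      · rw [hHe, map_sum, map_sum, Finset.mul_sum]
        refine Finset.sum_congr rfl fun i _ => ?_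
        rw [map_mul, map_mul, aeval_X, ← hPe i, hg i]
        ring
    · have h1 : ∀ α : Fin 5 →₀ ℕ, ∃ P : MvPolynomial (Fin 6) ℂ, P.IsHomogeneous (d + 1 + E) ∧
          (α ∈ H.support → aeval g Q * aeval s (monomial α (1 : ℂ)) = aeval g P) := by
        intro α
        by_cases hα : α ∈ H.support
        · have h2 : ∑ i, α i = 3 * (d + 1) := by
            have := hH.degree_eq_sum_deg_support hα
            rw [this]
            exact (Finset.sum_subset (subset_univ _) (fun i _ hi => by simpa using hi)).symm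
          obtain ⟨P, hP, hPe⟩ := hB α (mem_bd.2 (by omega)) (d + 1) h2
          exact ⟨P, hP, fun _ => hPe⟩
        · exact ⟨0, isHomogeneous_zero _ _ _, fun h => absurd h hα⟩
      choose P hP hPe using h1
      refine ⟨∑ α ∈ H.support, C (coeff α H) * P α,
        IsHomogeneous.sum _ _ _ fun α _ => (hP α).C_mul _, ?_⟩
      conv_lhs => rw [H.as_sum, map_sum, Finset.mul_sum]
      rw [map_sum]
      refine Finset.sum_congr rfl fun α hα => ?_
      rw [map_mul, aeval_C, ← hPe α hα]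
      have h3 : (monomial α (coeff α H) : MvPolynomial (Fin 5) ℂ) =
          C (coeff α H) * monomial α (1 : ℂ) := by
        rw [C_mul_monomial, mul_one]
      rw [h3, map_mul, aeval_C]
      ring

/-- the dimension count -/
theorem count {q : M} (hq : q ≠ 0)
    (hinj : ∀ (e : ℕ) (H : MvPolynomial (Fin 5) ℂ), H.IsHomogeneous e → aeval s H = 0 → H = 0)
    {F : MvPolynomial (Fin 6) ℂ} (hF : F.IsHomogeneous 3) (hF0 : F ≠ 0) (hFg : aeval g F = 0)
    {d f : ℕ} (h : ∀ H : MvPolynomial (Fin 5) ℂ, H.IsHomogeneous (3 * d) →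
      ∃ P : MvPolynomial (Fin 6) ℂ, P.IsHomogeneous (f + 3) ∧ q * aeval s H = aeval g P) :
    (3 * d + 4).choose 4 + (f + 5).choose 5 ≤ (f + 3 + 5).choose 5 := by
  have d5 := finrank_hom 4 (3 * d)
  have d6 := finrank_hom 5 (f + 3)
  have d6' := finrank_hom 5 f
  simp only [Nat.reduceAdd] at d5 d6 d6'
  have := d5.1
  have := d6.1
  have := d6'.1
  let R : homogeneousSubmodule (Fin 6) ℂ (f + 3) →ₗ[ℂ] M :=
    (aeval g).toLinearMap ∘ₗ (homogeneousSubmodule (Fin 6) ℂ (f + 3)).subtype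
  let L : homogeneousSubmodule (Fin 5) ℂ (3 * d) →ₗ[ℂ] M :=
    (LinearMap.mulLeft ℂ q) ∘ₗ (aeval s).toLinearMap ∘ₗ
      (homogeneousSubmodule (Fin 5) ℂ (3 * d)).subtype
  have hL : Function.Injective L := by
    rw [← LinearMap.ker_eq_bot, LinearMap.ker_eq_bot']
    rintro ⟨H, hH⟩ h1
    have h2 : q * aeval s H = 0 := h1
    have h3 : aeval s H = 0 := (mul_eq_zero.1 h2).resolve_left hq
    have h4 := hinj _ H ((mem_homogeneousSubmodule _ _).1 hH) h3
    exact Subtype.ext h4
  have hLR : LinearMap.range L ≤ LinearMap.range R := by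
    rintro _ ⟨⟨H, hH⟩, rfl⟩
    obtain ⟨P, hP, hPe⟩ := h H ((mem_homogeneousSubmodule _ _).1 hH)
    exact ⟨⟨P, (mem_homogeneousSubmodule _ _).2 hP⟩, hPe.symm⟩
  have e1 := LinearMap.finrank_range_of_inj hL
  have e2 := Submodule.finrank_mono hLR
  have e3 := LinearMap.finrank_range_add_finrank_ker R
  let N : homogeneousSubmodule (Fin 6) ℂ f →ₗ[ℂ] LinearMap.ker R :=
    { toFun := fun H => ⟨⟨F * H.1, by
        rw [mem_homogeneousSubmodule]
        have h1 := hF.mul ((mem_homogeneousSubmodule _ _).1 H.2)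
        rwa [add_comm] at h1⟩, by
        rw [LinearMap.mem_ker]
        show aeval g (F * H.1) = 0
        rw [map_mul, hFg, zero_mul]⟩
      map_add' := by
        intro x y
        apply Subtype.ext
        apply Subtype.ext
        exact mul_add _ _ _
      map_smul' := by
        intro c x
        apply Subtype.ext
        apply Subtype.ext
        exact mul_smul_comm _ _ _ }
  have hN : Function.Injective N := by
    rintro ⟨H, hH⟩ ⟨H', hH'⟩ h1
    have h2 : F * H = F * H' := congrArg (fun x => x.1.1) h1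
    exact Subtype.ext (mul_left_cancel₀ hF0 h2)
  have e4 := LinearMap.finrank_le_finrank_of_injective hN
  rw [d6'.2] at e4
  rw [d6.2] at e3
  rw [d5.2] at e1
  omega

/-- **a birational map given by forms of degree 3 has a base point** -/
theorem base : S_BASE := by
  intro M _ _ s hinj F hF hF0 G hG hFG hr
  by_contra hcon
  push Not at hcon
  obtain ⟨g, hg⟩ : ∃ g : Fin 6 → M, g = fun l => aeval s (G l) := ⟨_, rfl⟩
  have hg' : ∀ l, g l = aeval s (G l) := fun l => by rw [hg]
  rw [← hg] at hr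
  have hz : ∀ z : Fin 5 → ℂ, (∀ i, eval z (G i) = 0) → z = 0 := by
    intro z hz
    by_contra h0
    obtain ⟨i, hi⟩ := hcon z h0
    exact hi (hz i)
  have ha : ∃ a, g a ≠ 0 := by
    by_contra h
    push Not at h
    have h1 : ∀ i, G i = 0 := fun i => hinj 3 (G i) (hG i) (by rw [← hg' i]; exact h i)
    obtain ⟨i, hi⟩ := hcon 1 one_ne_zero
    exact hi (by rw [h1 i, map_zero])
  obtain ⟨a, ha⟩ := ha
  have hs : ∃ b, s b ≠ 0 := by
    refine ⟨0, fun h => ?_⟩
    have h1 := hinj 1 (X 0) (isHomogeneous_X _ _) (by rw [aeval_X]; exact h)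
    exact X_ne_zero (R := ℂ) (0 : Fin 5) h1
  have hFg : aeval g F = 0 := by
    have h1 : aeval g F = aeval s (aeval G F) := by
      rw [hg]
      have h2 : (aeval (fun l => aeval s (G l)) : MvPolynomial (Fin 6) ℂ →ₐ[ℂ] M) =
          (aeval s).comp (aeval G) := by
        apply MvPolynomial.algHom_ext
        intro i
        rw [aeval_X, AlgHom.comp_apply, aeval_X]
      rw [h2, AlgHom.comp_apply]
    rw [h1, hFG, map_zero]
  obtain ⟨E, Q, hQ0, hall⟩ := allforms hG hg' hs ha hr hz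
  have key : ∀ d : ℕ, 81 * d ^ 4 ≤ 3 * (d + (E + 3 + 4)) ^ 4 := by
    intro d
    have h1 := count (s := s) (g := g) (q := aeval g Q * g a ^ 3)
      (mul_ne_zero hQ0 (pow_ne_zero _ ha)) hinj hF hF0 hFg (d := d) (f := d + E) (by
        intro H hH
        obtain ⟨P, hP, hPe⟩ := hall d H hH
        refine ⟨P * X a ^ 3, ?_, ?_⟩
        · have := hP.mul ((isHomogeneous_X ℂ a).pow 3)
          simpa using this
        · rw [map_mul, map_pow, aeval_X, ← hPe]
          ring)
    have h2 : (d + E + 3 + 4 + 1).choose 5 ≤ (d + E + 4 + 1).choose 5 +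
        3 * (d + E + 3 + 4).choose 4 := choose_step 4 (d + E) 3
    have h3 : (3 * d + 4).choose 4 ≤ 3 * (d + E + 3 + 4).choose 4 := by
      have e1 : d + E + 3 + 4 + 1 = d + E + 3 + 5 := by ring
      have e2 : d + E + 4 + 1 = d + E + 5 := by ring
      rw [e1, e2] at h2
      omega
    calc 81 * d ^ 4 = (3 * d) ^ 4 := by ring
      _ ≤ (3 * d + 1) ^ 4 := Nat.pow_le_pow_left (by omega) _
      _ ≤ (3 * d + 1).ascFactorial 4 := Nat.pow_succ_le_ascFactorial _ _
      _ = Nat.factorial 4 * (3 * d + 4).choose 4 := by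
          rw [Nat.ascFactorial_eq_factorial_mul_choose]
      _ ≤ Nat.factorial 4 * (3 * (d + E + 3 + 4).choose 4) := Nat.mul_le_mul_left _ h3
      _ = 3 * (d + E + 3 + 1).ascFactorial 4 := by
          rw [Nat.ascFactorial_eq_factorial_mul_choose]; ring
      _ ≤ 3 * (d + E + 3 + 4) ^ 4 := Nat.mul_le_mul_left _ (Nat.ascFactorial_le_pow_add _ _)
      _ = 3 * (d + (E + 3 + 4)) ^ 4 := by ring
  have h81 := asym_pow key
  omega

end

end Pool.Agent.Y270.C3
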